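import Pool.Agent.H61.KU.TT

/-!
# Module GH4 (MP_c11ac4_gt): the complement of the graph of `δ`
-/

open Topology Set
open Pool.Agent.H59 Pool.Agent.H64.LB Pool.Agent.H24.LB Pool.Agent.H61.KU
open scoped unitInterval

namespace Pool.Agent.H23.KU.GH4

/-! ### linear algebra -/

theorem hp_JJ_left (d : Fin 2 → ℂ) : hp (JJ d) d = 0 := by
  simp only [hp, JJ, Matrix.cons_val_zero, Matrix.cons_val_one, map_neg, Complex.conj_conj]
  ring

theorem hp_add (u w w' : Fin 2 → ℂ) : hp u (w + w') = hp u w + hp u w' := by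
  simp only [hp, Pi.add_apply]
  ring

theorem hp_sub (u w w' : Fin 2 → ℂ) : hp u (w - w') = hp u w - hp u w' := by
  simp only [hp, Pi.sub_apply]
  ring

theorem hp_smul (u : Fin 2 → ℂ) (a : ℂ) (w : Fin 2 → ℂ) : hp u (a • w) = a * hp u w := by
  simp only [hp, Pi.smul_apply, smul_eq_mul]
  ring

theorem hp_zero (u : Fin 2 → ℂ) : hp u 0 = 0 := by
  simp [hp]

/-- if `[u] ≠ [d]` then the component of `u` orthogonal to `d` does not vanish -/
theorem hp_ne {d u : Fin 2 → ℂ} (hd : d ≠ 0) (hu : u ≠ 0) (h : P2 u ≠ P2 d) :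
    hp (JJ d) u ≠ 0 := by
  intro h0
  have h1 := decomp hd u
  rw [h0, zero_div, zero_smul, add_zero] at h1
  have ha : hp d u / hp d d ≠ 0 := by
    intro ha
    rw [ha, zero_smul] at h1
    exact hu h1
  apply h
  rw [h1]
  exact P2_smul _ ha hd

/-- the retraction on vectors -/
noncomputable def rr (t : ℝ) (l : PN 1) (u : Fin 2 → ℂ) : Fin 2 → ℂ :=
  (u - pj l u) + (t : ℂ) • pj l u

theorem rr_smul (t : ℝ) (l : PN 1) (a : ℂ) (u : Fin 2 → ℂ) : rr t l (a • u) = a • rr t l u := by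
  unfold rr
  rw [pj_smul]
  funext i
  simp only [Pi.add_apply, Pi.sub_apply, Pi.smul_apply, smul_eq_mul]
  ring

theorem rr_one (l : PN 1) (u : Fin 2 → ℂ) : rr 1 l u = u := by
  unfold rr
  funext i
  simp only [Pi.add_apply, Pi.sub_apply, Pi.smul_apply, smul_eq_mul, Complex.ofReal_one]
  ring

theorem hp_rr (t : ℝ) {d : Fin 2 → ℂ} (hd : d ≠ 0) (u : Fin 2 → ℂ) :
    hp (JJ d) (rr t (P2 d) u) = hp (JJ d) u := by
  unfold rr
  rw [pj_P2 hd, hp_add, hp_sub, hp_smul, hp_smul, hp_smul, hp_JJ_left]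
  ring

theorem rr_zero {d : Fin 2 → ℂ} (hd : d ≠ 0) (u : Fin 2 → ℂ) :
    rr 0 (P2 d) u = (hp (JJ d) u / hp d d) • JJ d := by
  unfold rr
  rw [pj_P2 hd, Complex.ofReal_zero, zero_smul, add_zero]
  have h1 := decomp hd u
  nth_rewrite 1 [h1]
  rw [add_sub_cancel_left]

theorem rr_ne (t : ℝ) {d u : Fin 2 → ℂ} (hd : d ≠ 0) (hu : u ≠ 0) (h : P2 u ≠ P2 d) :
    rr t (P2 d) u ≠ 0 := by
  intro h0
  have h1 := hp_rr t hd u
  rw [h0, hp_zero] at h1
  exact hp_ne hd hu h h1.symm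

theorem P2_rr_ne (t : ℝ) {d u : Fin 2 → ℂ} (hd : d ≠ 0) (hu : u ≠ 0) (h : P2 u ≠ P2 d) :
    P2 (rr t (P2 d) u) ≠ P2 d := by
  intro h0
  obtain ⟨a, ha, h1⟩ := (P2_eq_iff (rr_ne t hd hu h) hd).1 h0
  have h2 : hp (JJ d) d = a * hp (JJ d) (rr t (P2 d) u) := by
    rw [← hp_smul, ← h1]
  rw [hp_JJ_left, hp_rr t hd] at h2
  exact mul_ne_zero ha (hp_ne hd hu h) h2.symm

/-! ### the retraction of `PN 1` minus `l` to the orthogonal line -/

/-- the retraction (junk on `l`) -/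
noncomputable def ret (t : ℝ) (l : PN 1) : PN 1 → PN 1 :=
  Quotient.lift (fun v : NZ 1 => P2 (rr t l v.1)) (by
    rintro v w ⟨c, hc, h⟩
    rw [h, rr_smul]
    by_cases hz : rr t l v.1 = 0
    · rw [hz, smul_zero]
    · exact (P2_smul c hc hz).symm)

theorem ret_pt (t : ℝ) (l : PN 1) (v : NZ 1) : ret t l (pt v) = P2 (rr t l v.1) := rfl

theorem ret_P2 (t : ℝ) (l : PN 1) {u : Fin 2 → ℂ} (hu : u ≠ 0) :
    ret t l (P2 u) = P2 (rr t l u) := by
  rw [P2_eq hu, ret_pt]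

theorem ret_ne (t : ℝ) {l y : PN 1} (h : y ≠ l) : ret t l y ≠ l := by
  obtain ⟨d, hd, rfl⟩ := exists_P2 l
  obtain ⟨u, hu, rfl⟩ := exists_P2 y
  rw [ret_P2 _ _ hu]
  exact P2_rr_ne t hd hu h

theorem ret_one (l y : PN 1) : ret 1 l y = y := by
  obtain ⟨u, hu, rfl⟩ := exists_P2 y
  rw [ret_P2 _ _ hu, rr_one]

theorem ret_zero {l y : PN 1} (h : y ≠ l) : ret 0 l y = perp l := by
  obtain ⟨d, hd, rfl⟩ := exists_P2 l
  obtain ⟨u, hu, rfl⟩ := exists_P2 y
  rw [ret_P2 _ _ hu, perp_P2 hd, rr_zero hd]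
  exact P2_smul _ (div_ne_zero (hp_ne hd hu h) (hp_self_ne hd)) (JJ_ne hd)

theorem perp_ne (l : PN 1) : perp l ≠ l := by
  obtain ⟨d, hd, rfl⟩ := exists_P2 l
  rw [perp_P2 hd]
  intro h0
  obtain ⟨a, ha, h1⟩ := (P2_eq_iff (JJ_ne hd) hd).1 h0
  have h2 : hp d d = a * hp d (JJ d) := by
    rw [← hp_smul, ← h1]
  rw [hp_JJ, mul_zero] at h2
  exact hp_self_ne hd h2

/-- pairs outside the graph, with a parameter -/
def AA (δ : C(S2, PN 1)) : Set ((I × S2) × PN 1) := {p | p.2 ≠ δ p.1.2}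

/-- the retraction on `AA δ` -/
noncomputable def retA (δ : C(S2, PN 1)) (p : ↥(AA δ)) : PN 1 :=
  ret (p.1.1.1 : ℝ) (δ p.1.1.2) p.1.2

theorem continuous_retA (δ : C(S2, PN 1)) : Continuous (retA δ) := by
  refine continuous_desc (AA δ) (retA δ) ?_
  change Continuous (fun p : {p : (I × S2) × NZ 1 // (p.1, pt p.2) ∈ AA δ} =>
      P2 (rr (p.1.1.1 : ℝ) (δ p.1.1.2) p.1.2.1))
  have hv : Continuous (fun p : {p : (I × S2) × NZ 1 // (p.1, pt p.2) ∈ AA δ} => p.1.2.1) :=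
    continuous_subtype_val.comp (continuous_snd.comp continuous_subtype_val)
  have ht : Continuous (fun p : {p : (I × S2) × NZ 1 // (p.1, pt p.2) ∈ AA δ} =>
      ((p.1.1.1 : ℝ) : ℂ)) :=
    Complex.continuous_ofReal.comp (continuous_subtype_val.comp
      (continuous_fst.comp (continuous_fst.comp continuous_subtype_val)))
  have hl : Continuous (fun p : {p : (I × S2) × NZ 1 // (p.1, pt p.2) ∈ AA δ} =>
      δ p.1.1.2) :=
    δ.continuous.comp (continuous_snd.comp (continuous_fst.comp continuous_subtype_val))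
  have hp := continuous_pj hl hv
  refine continuous_P2 ?_ ?_
  · unfold rr
    exact (hv.sub hp).add (ht.smul hp)
  · rintro ⟨⟨⟨t, s⟩, v⟩, h⟩
    change pt v ≠ δ s at h
    obtain ⟨d, hd, he⟩ := exists_P2 (δ s)
    change rr t (δ s) v.1 ≠ 0
    rw [he] at h ⊢
    refine rr_ne t hd v.2 ?_
    rw [P2_eq v.2]
    exact h

/-- the map `(t, (s, y)) ↦ ((t, s), y)` -/
def toA (δ : C(S2, PN 1)) (p : I × ↥(Gh δ)) : ↥(AA δ) := ⟨((p.1, p.2.1.1), p.2.1.2), p.2.2⟩

theorem continuous_toA (δ : C(S2, PN 1)) : Continuous (toA δ) := by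
  refine Continuous.subtype_mk ?_ _
  exact (continuous_fst.prodMk (continuous_fst.comp (continuous_subtype_val.comp
    continuous_snd))).prodMk (continuous_snd.comp (continuous_subtype_val.comp continuous_snd))

theorem continuous_ret (δ : C(S2, PN 1)) : Continuous (fun p : I × ↥(Gh δ) =>
    retA δ (toA δ p)) :=
  (continuous_retA δ).comp (continuous_toA δ)

/-- the section `s ↦ (s, perp (δ s))` -/
noncomputable def sig (δ : C(S2, PN 1)) : C(S2, ↥(Gh δ)) where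
  toFun s := ⟨(s, perp (δ s)), perp_ne (δ s)⟩
  continuous_toFun := Continuous.subtype_mk
    (continuous_id.prodMk (perp.continuous.comp δ.continuous)) _

/-- the projection to `S2` -/
def prS (δ : C(S2, PN 1)) : C(↥(Gh δ), S2) where
  toFun p := p.1.1
  continuous_toFun := continuous_fst.comp continuous_subtype_val

/-- the homotopy from `sig ∘ prS` to the identity -/
noncomputable def homG (δ : C(S2, PN 1)) :
    ((sig δ).comp (prS δ)).Homotopy (ContinuousMap.id ↥(Gh δ)) where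
  toFun p := ⟨(p.2.1.1, retA δ (toA δ p)), ret_ne _ p.2.2⟩
  continuous_toFun := Continuous.subtype_mk
    ((continuous_fst.comp (continuous_subtype_val.comp continuous_snd)).prodMk
      (continuous_ret δ)) _
  map_zero_left y := Subtype.ext (Prod.ext rfl (by
    change ret ((0 : I) : ℝ) (δ y.1.1) y.1.2 = perp (δ y.1.1)
    rw [Set.Icc.coe_zero]
    exact ret_zero y.2))
  map_one_left y := Subtype.ext (Prod.ext rfl (by
    change ret ((1 : I) : ℝ) (δ y.1.1) y.1.2 = y.1.2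
    rw [Set.Icc.coe_one]
    exact ret_one _ _))

/-- T01. The complement of the graph of `δ`. -/
theorem pf_gh4 (hHM : T_HM) (hS2 : T_S2H) : T_GH4 := by
  intro δ
  have hS : Subsingleton (HH (ZMod 2) 4 S2) := (hS2 (ZMod 2)).2.2.1 1
  have h1 := hHM (ZMod 2) _ _ _ _ ⟨homG δ⟩ 4
  have h2 : ∀ z : HH (ZMod 2) 4 ↥(Gh δ), z = 0 := by
    intro z
    have h3 : z = HH.map (ZMod 2) 4 ((sig δ).comp (prS δ)) z := by
      rw [h1, HH.map_id]
    rw [h3, HH.map_comp, Subsingleton.elim (HH.map (ZMod 2) 4 (prS δ) z) 0, map_zero]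
  exact ⟨fun x y => (h2 x).trans (h2 y).symm⟩

end Pool.Agent.H23.KU.GH4
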