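import Pool.Agent.H61.KU.TB

/-!
# Kuiper board, MNF: every face which is not contained in the image contains a minimal one
-/

open Set Pool.Agent.H61.KU

namespace Pool.Agent.H23.KU

theorem pf_mnf : T_MNF := by
  intro ι _ _ f v F
  induction F using Finset.strongInduction with
  | H F ih =>
    intro hF hn
    by_cases h : ∀ G, IsFace (hom v) G → G ⊂ F → cv v G ⊆ range f
    · exact ⟨F, ⟨hF, hn, h⟩, Finset.Subset.refl F⟩
    · push Not at h
      obtain ⟨G, hG, hGF, hGn⟩ := h
      obtain ⟨T, hT, hTG⟩ := ih G hGF hG hGn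
      exact ⟨T, hT, hTG.trans hGF.subset⟩

end Pool.Agent.H23.KU
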